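import Mathlib
import Pool.Agent.Helper65.MT.St

/-!
# MT module FC: dense sets
-/

set_option autoImplicit false

open Finset Pool.Agent.Helper16 Pool.Agent.Helper65.MT

namespace Pool.Agent.Helper86.MT

theorem m_FC : StFC := by
  intro hGE
  obtain ⟨X1, hX1⟩ := hGE
  -- largeness of `s = log t`
  have hlit := (isLittleO_log_rpow_atTop (by norm_num : (0 : ℝ) < 1 / 2)).bound
    (by norm_num : (0 : ℝ) < 1 / 200)
  have hlog : Filter.Tendsto Real.log Filter.atTop Filter.atTop := Real.tendsto_log_atTop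
  have hev := (hlog.eventually (hlit.and (Filter.eventually_ge_atTop (3 : ℝ)))).and
    ((Filter.eventually_ge_atTop X1).and (Filter.eventually_ge_atTop (1 : ℝ)))
  obtain ⟨X0, hX0⟩ := Filter.eventually_atTop.mp hev
  refine ⟨X0, ?_⟩
  intro t ht D N t' hD hDs hN hNs htt' ht't S hS
  obtain ⟨⟨hl1, hs3⟩, hX1t, ht1⟩ := hX0 t ht
  set s : ℝ := Real.log t with hsdef
  set u : ℝ := Real.log s with hudef
  have hs0 : 0 < s := by linarith
  have hu0 : 0 ≤ u := Real.log_nonneg (by linarith)
  have hsq : 200 * u ≤ Real.sqrt s := by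
    have h1 : |u| ≤ 1 / 200 * |s ^ (1 / 2 : ℝ)| := by
      simpa [Real.norm_eq_abs] using hl1
    rw [abs_of_nonneg hu0, abs_of_nonneg (Real.rpow_nonneg hs0.le _), ← Real.sqrt_eq_rpow] at h1
    linarith
  have hsqs : Real.sqrt s * Real.sqrt s = s := Real.mul_self_sqrt hs0.le
  have hsq0 : 0 ≤ Real.sqrt s := Real.sqrt_nonneg s
  have htR : (t : ℝ) ≤ t' := by exact_mod_cast htt'
  have ht'R : (t' : ℝ) ≤ 2 * t := by exact_mod_cast ht't
  have ht0 : (0 : ℝ) < t := by linarith
  have hst' : s ≤ Real.log t' := Real.log_le_log ht0 htR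
  have hDR : (1 : ℝ) ≤ D := by exact_mod_cast hD
  have hNR : (2 : ℝ) ≤ N := by exact_mod_cast hN
  have hN0 : (0 : ℝ) < N := by linarith
  by_contra hcard
  rw [not_lt] at hcard
  obtain ⟨s', hs's, hs'card⟩ := Finset.exists_subset_card_eq hcard
  set nn : Fin N → ℕ := fun i => s'.orderEmbOfFin hs'card i with hnn
  have hnnmem : ∀ i, nn i ∈ S := fun i => hs's (Finset.orderEmbOfFin_mem s' hs'card i)
  have hnnmono : StrictMono nn := (s'.orderEmbOfFin hs'card).strictMono
  have hnnt : ∀ i, t' ≤ nn i := fun i => (hS _ (hnnmem i)).1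
  have hnnW : ∀ i, nn i ≤ t' + D * N := fun i => (hS _ (hnnmem i)).2.1
  -- sizes
  have hWpos : 0 < D * N := Nat.mul_pos (by omega) (by omega)
  have hW1 : (1 : ℝ) ≤ (D : ℝ) * N := by nlinarith
  have hss : Real.sqrt s ≤ s := by
    rw [Real.sqrt_le_left hs0.le]
    nlinarith
  have hWs : (D : ℝ) * N ≤ s ^ 2 := by
    calc (D : ℝ) * N ≤ Real.sqrt s * s := mul_le_mul hDs hNs hN0.le hsq0
      _ ≤ s * s := mul_le_mul_of_nonneg_right hss hs0.le
      _ = s ^ 2 := by ring
  have hlogW : Real.log ((D : ℝ) * N) ≤ 2 * u := by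
    calc Real.log ((D : ℝ) * N) ≤ Real.log (s ^ 2) := Real.log_le_log (by linarith) hWs
      _ = 2 * u := by rw [Real.log_pow]; push_cast; rfl
  have hlogW0 : 0 ≤ Real.log ((D : ℝ) * N) := Real.log_nonneg hW1
  set v : ℝ := (D : ℝ) * N * Real.log ((D : ℝ) * N) with hvdef
  have hv0 : 0 ≤ v := by positivity
  have hv2 : v ≤ 2 * D * N * u := by
    have : v ≤ (D : ℝ) * N * (2 * u) := mul_le_mul_of_nonneg_left hlogW (by positivity)
    linarith
  have hDu : 2 * (D : ℝ) * u ≤ s / 100 := by
    have h1 : (D : ℝ) * (200 * u) ≤ Real.sqrt s * Real.sqrt s :=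
      mul_le_mul hDs hsq (by positivity) hsq0
    rw [hsqs] at h1
    linarith
  obtain ⟨i, hi⟩ := hX1 t' (hX1t.trans htR) N (D * N) hN (by linarith) (by
      push_cast
      have h1 : s ^ 2 ≤ Real.log t' ^ 2 := pow_le_pow_left₀ hs0.le hst' 2
      have h2 : Real.log (t' : ℝ) ^ 2 ≤ Real.log t' ^ 5 :=
        pow_le_pow_right₀ (by linarith) (by norm_num)
      linarith) nn hnnmono (fun i => ⟨hnnt i, hnnW i⟩)
    (((D * N).factorial : ℕ) : ℤ) v (by
      intro j
      have h1 := dvd_factorial_nodes (fun i => nn i - t') (by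
        intro a b hab
        have h1 := hnnmono hab
        have h2 := hnnt a
        have h3 := hnnt b
        show nn a - t' < nn b - t'
        omega) (D * N) (by
        intro a
        have h1 := hnnW a
        show nn a - t' ≤ D * N
        omega) j
      have h2 : ∏ i ∈ Finset.univ.erase j, ((nn j : ℤ) - (nn i : ℤ)) =
          ∏ i ∈ Finset.univ.erase j, (((nn j - t' : ℕ) : ℤ) - ((nn i - t' : ℕ) : ℤ)) := by
        refine Finset.prod_congr rfl (fun i _ => ?_)
        rw [Nat.cast_sub (hnnt j), Nat.cast_sub (hnnt i)]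
        ring
      rw [h2]
      exact h1) (by
      intro p hp hpW hdvd
      have h1 : p ∣ (D * N).factorial := by exact_mod_cast hdvd
      rw [hp.dvd_factorial] at h1
      omega) (by
      have h1 : |((((D * N).factorial : ℕ) : ℤ) : ℝ)| = ((D * N).factorial : ℝ) := by
        rw [Int.cast_natCast, Nat.abs_cast]
      rw [h1]
      have h2 := factorial_le_exp (D * N) hWpos
      push_cast at h2
      exact h2) hv0 (by
      have h1 : v ≤ N * (s / 100) := by
        calc v ≤ 2 * D * N * u := hv2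
          _ = N * (2 * D * u) := by ring
          _ ≤ N * (s / 100) := mul_le_mul_of_nonneg_left hDu hN0.le
      have h2 : (N : ℝ) * (s / 100) ≤ N * Real.log t' / 100 := by
        have : (N : ℝ) * s ≤ N * Real.log t' := mul_le_mul_of_nonneg_left hst' hN0.le
        linarith
      linarith)
  have hlev := (hS _ (hnnmem i)).2.2
  have hlt' : 0 < Real.log (t' : ℝ) := by linarith
  have h1 : v / (N * Real.log t') ≤ 2 * D * u / s := by
    calc v / (N * Real.log t') ≤ (2 * D * N * u) / (N * Real.log t') :=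
          div_le_div_of_nonneg_right hv2 (by positivity)
      _ = 2 * D * u / Real.log t' := by field_simp
      _ ≤ 2 * D * u / s := div_le_div_of_nonneg_left (by positivity) hs0 hst'
  have h2 : (0 : ℝ) ≤ 1 / N + v / (N * Real.log t') := by positivity
  have h3 : 30 * (t' : ℝ) * (1 / N + v / (N * Real.log t')) ≤
      60 * t * (1 / N + 2 * D * u / s) := by
    calc 30 * (t' : ℝ) * (1 / N + v / (N * Real.log t'))
        ≤ 60 * t * (1 / N + v / (N * Real.log t')) :=
          mul_le_mul_of_nonneg_right (by linarith) h2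
      _ ≤ 60 * t * (1 / N + 2 * D * u / s) :=
          mul_le_mul_of_nonneg_left (by linarith) (by positivity)
  have h4 := hi.trans h3
  exact absurd hlev (not_lt.mpr h4)

end Pool.Agent.Helper86.MT
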